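import Pool.Agent.W495.FM.WeilDefs
import Pool.Agent.W495.FM.Hom

/-!
# Finite generation of the Weil-étale motivic cohomology of varieties generated by small abelian
varieties

An abelian variety over the field with `p ^ a` elements is modelled by `RedAV` (Honda, Tate): a
finite product of CM types `(E i, Φ i)` with Weil numbers `π i ∈ E i` that satisfy the formula of
Shimura and Taniyama; its cohomology of degree `n` consists of the alternating `n`-forms on the Tate
module `Ω ⊗ H_1`, on which the Frobenius endomorphism acts by `π`.

`IsSmall Y`: the dimension of `Y` is at most four; or `Y` is (over an algebraic closure) isogenous to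
the product of a power of a simple abelian variety of dimension at most five and of a supersingular
abelian variety; or `Y` is a product of abelian varieties of dimension at most three, with a condition
on the Galois closures of their CM fields. The Newton polygon is arbitrary.

For all smooth projective varieties `X` of dimension `d` in the class generated by these abelian
varieties (by motivic direct summands of sums of twists, and two-out-of-three for closed subschemes
and their complements), and all `0 ≤ n ≤ d`, the groups `H^i_W(X, ℤ(n))` are finitely generated for
all `i`, and the maps `H^i_W(X, ℤ(n)) ⊗ ℤ_ℓ → H^i_et(X, ℤ_ℓ(n))` are isomorphisms for all primes `ℓ`.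
-/

namespace Pool.Agent.Results.MP_cb388a_ag.GeneratedBySmallAbelian

open Pool.Agent.W495.TA Pool.Agent.W495.FM

/-- The statements `L^n(X)` and `K^n(X)` for all smooth projective `X` in the class generated by small
abelian varieties. -/
theorem result (p : ℕ) [Fact p.Prime] (ν : PadicAlgCl p ≃+* ℂ) (Ω : Type) [Field Ω]
    [IsAlgClosed Ω] [CharZero Ω] (V : Type) (T : Homology Ω V) (hT : IsHomology T)
    (W : WeilEtale V) (P : V → ℕ → Prop) (hW : IsWeilEtale T W P) (X : V) (d : ℕ) (hP : P X d)
    (hX : Generated T (IsSmallAbelian p ν T) X) (n : ℕ) (hn : n ≤ d) :
    LHolds W X n ∧ KHolds W X n := by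
  have hTB : TB T X := tb_small hT hX
  have h1 := hW.comparison X d hP hTB n hn
  have h2 := hW.comparison X d hP hTB (d - n) (Nat.sub_le d n)
  rw [Nat.cast_sub hn] at h2
  exact ⟨hW.geisser X d hP n hn h1 h2, h1⟩

end Pool.Agent.Results.MP_cb388a_ag.GeneratedBySmallAbelian
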